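import Mathlib
import Pool.Agent.Lib.MP_93ea69_gt.Defs
import Pool.Agent.Lib.MP_93ea69_gt.Mono

namespace Pool.Agent.Results.MP_93ea69_gt.MonotoneNormal

open Pool.Agent.Lib.MP_93ea69_gt

/-- The `ω₁`-fold nabla power of `ω + 1` is monotonically normal (operator on separated pairs). -/
theorem result : ∃ G : Set Nabla → Set Nabla → Set Nabla,
    (∀ A B : Set Nabla, Disjoint (closure A) B → Disjoint A (closure B) →
      IsOpen (G A B) ∧ A ⊆ G A B ∧ Disjoint (closure (G A B)) B) ∧
    ∀ A A' B B' : Set Nabla, A ⊆ A' → B' ⊆ B → G A B ⊆ G A' B' := monotoneNormal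

end Pool.Agent.Results.MP_93ea69_gt.MonotoneNormal
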