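import Mathlib
import Pool.Agent.Lib.MP_93ea69_gt.Defs
import Pool.Agent.Lib.MP_93ea69_gt.Davies

namespace Pool.Agent.Results.MP_93ea69_gt.Paracompact

open Pool.Agent.Lib.MP_93ea69_gt

/-- The `ω₁`-fold nabla power of `ω + 1` is paracompact. -/
theorem result : ParacompactSpace Nabla := paracompact

end Pool.Agent.Results.MP_93ea69_gt.Paracompact
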